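import Pool.Agent.helper64.PB.SpecA

/-!
# Row pb:ALO (MP_069684_lc)

The disjunction of `n` variables has linear size over every basis which generates the disjunction of two.
-/

set_option autoImplicit false

namespace Pool.Agent.PB

lemma ALO_and : fAnd = dual fOr := by
  funext x
  simp [fAnd, dual, fOr]

lemma ALO_all (n : ℕ) : allAnd n = dual (allOr n) := by
  funext x
  simp only [allAnd, dual, allOr]
  rw [Bool.eq_iff_iff]
  simp

theorem ALO (hALA : ALA_stmt) (hDUA : DUA_stmt) : ALO_stmt := by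
  obtain ⟨-, -, -, hS, -⟩ := hDUA
  rintro G ⟨s, hs⟩
  obtain ⟨c, hc⟩ := hALA (dualB G) ⟨s, by rw [ALO_and, hS]; exact hs⟩
  refine ⟨c, fun n hn => ?_⟩
  have h := hc n hn
  rw [ALO_all, hS] at h
  exact h

end Pool.Agent.PB
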