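import Pool.Agent.helper64.PB.SpecL

/-!
# Row pb:CLA (MP_069684_lc)

Every language is turned by two additional variables into one whose slices belong to the class.
-/

set_option autoImplicit false

namespace Pool.Agent.PB

open Finset

lemma CLA_one {n : ℕ} (f : BF n) : eA f (fun _ => true) = true := by
  simp [eA]

lemma CLA_zero {n : ℕ} (f : BF n) : eA f (fun _ => false) = false := by
  simp [eA]

lemma CLA_le {n : ℕ} (f : BF n) (z : Fin (n + 2) → Bool) (h : eA f z = true) :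
    z (Fin.natAdd n 0) = true := by
  simp only [eA, Bool.or_eq_true, Bool.and_eq_true, decide_eq_true_eq] at h
  rcases h with h | h
  · exact h.1.1
  · exact h _

lemma CLA_dual {n : ℕ} (f : BF n) : dual (eO f) = eA (dual f) := by
  funext z
  simp only [dual, eO, eA]
  have h1 : (!decide (∃ i : Fin (n + 2), (!z i) = true)) = decide (∀ i, z i = true) := by
    rw [Bool.eq_iff_iff]
    simp
  rw [Bool.not_and, h1]
  simp [Bool.not_or]

lemma CLA_ext (G : Set Gate) (Φ : ∀ n, BF n → BF (n + 2)) (h : ∀ (n : ℕ) (f : BF n), ∃ s, Size G (Φ n f) s)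
    (A : Lang) : Slices G (ext Φ A) := by
  intro n hn
  match n, hn with
  | 1, _ => exact ⟨0, [], Prog.nil, le_rfl, Or.inr ⟨0, rfl⟩⟩
  | n + 2, _ => exact h n (A n)

theorem CLA (hCSE : CSE_stmt) (hRTP : RTP_stmt) (hEID : EID_stmt) (hET0 : ET0_stmt) (hEAL : EAL_stmt)
    (hDNF : DNF_stmt) (hDUA : DUA_stmt) (hPRP : PRP_stmt) : CLA_stmt := by
  intro G hT hW hS
  obtain ⟨-, -, -, hSz, -⟩ := hDUA
  have hA : ∀ (G' : Set Gate), InCl G' fM → ∀ (n : ℕ) (f : BF n), ∃ s, Size G' (eA f) s := by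
    intro G' hM n f
    obtain ⟨c, hc⟩ := hRTP G' hM
    obtain ⟨s, hs⟩ := hDNF.1 (n + 2) (eA f)
    exact ⟨_, hc (n + 2) (by omega) (fun z => z (Fin.natAdd n 0)) (eA f) s 0
      ⟨[], Prog.nil, le_rfl, Or.inr ⟨_, rfl⟩⟩ (CLA_le f) (CLA_one f) hs⟩
  rcases hCSE G hT hW with h | h | h | h | h | h | h
  · left
    exact CLA_ext G _ (hA G h.2)
  · right
    refine CLA_ext G _ fun n f => ?_
    obtain ⟨s, hs⟩ := hA (dualB G) h.2 n (dual f)
    refine ⟨s, ?_⟩
    rw [← hSz, CLA_dual]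
    exact hs
  · obtain ⟨g, hg, hg2⟩ := hS
    exact absurd (h.1 g hg) hg2
  · left
    obtain ⟨h1, h2, h3, g, h4, h5, h6⟩ := h
    obtain ⟨-, -, -, -, -, -, -, p1, p2⟩ := hPRP G 3 g h4
    have e1 : (![false, false, false] : Fin 3 → Bool) = fun _ => false := by
      funext i
      fin_cases i <;> rfl
    have e2 : (![true, true, true] : Fin 3 → Bool) = fun _ => true := by
      funext i
      fin_cases i <;> rfl
    obtain ⟨c, hc⟩ := hEID G g h2 h3 h4 (by rw [e1]; exact p1 fun g' hg' => (h1 g' hg').1)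
      (by rw [e2]; exact p2 fun g' hg' => (h1 g' hg').2) h5 h6
    refine CLA_ext G _ fun n f => ?_
    obtain ⟨s, hs⟩ := hDNF.1 (n + 2) (eA f)
    exact ⟨_, hc (n + 2) (by omega) (eA f) (CLA_zero f) (CLA_one f) s hs⟩
  · left
    obtain ⟨-, h2, q, h4, h5, h6, h7⟩ := h
    obtain ⟨c, hc⟩ := hET0 G q h2 h4 h5 h6 h7
    refine CLA_ext G _ fun n f => ?_
    obtain ⟨s, hs⟩ := hDNF.1 (n + 2) (eA f)
    exact ⟨_, hc (n + 2) (by omega) (eA f) (CLA_zero f) s hs⟩
  · left
    obtain ⟨-, h2, q, h4, h5, h6, h7⟩ := h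
    obtain ⟨c, hc⟩ := hET0 (dualB G) q h2 h4 h5 h6 h7
    refine CLA_ext G _ fun n f => ?_
    obtain ⟨s, hs⟩ := hDNF.1 (n + 2) (dual (eA f))
    have h8 : dual (eA f) (fun _ => false) = false := by
      change (!(eA f fun _ => !false)) = false
      have := CLA_one f
      simpa using this
    exact ⟨_, (hSz G (n + 2) (eA f) _).1 (hc (n + 2) (by omega) (dual (eA f)) h8 s hs)⟩
  · left
    obtain ⟨h1, h2, h3⟩ := h
    obtain ⟨c, hc⟩ := hEAL G h1 h2 h3
    refine CLA_ext G _ fun n f => ?_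
    obtain ⟨s, hs⟩ := hDNF.1 (n + 2) (eA f)
    exact ⟨_, hc (n + 2) (by omega) (eA f) s hs⟩

end Pool.Agent.PB
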