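import Pool.Agent.helper64.PB.SpecF

/-!
# Row pb:CLO (MP_069684_lc)

Closure of a family of partial sections.
-/

set_option autoImplicit false

namespace Pool.Agent.PB

open Finset Polynomial

lemma CLO_card {T : Type} [Fintype T] [DecidableEq T] (r : ℕ) (U : Finset (Finset T))
    (hU : ∀ A ∈ U, A.card ≤ r) : U.card ≤ (Fintype.card T + 1) ^ r := by
  classical
  have h1 : U ⊆ (univ : Finset (Fin r → Option T)).image
      (fun f => univ.filter fun z => ∃ i, f i = some z) := by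
    intro A hA
    rw [Finset.mem_image]
    have hc := hU A hA
    refine ⟨fun i => if h : (i : ℕ) < A.card then some (A.equivFin.symm ⟨i, h⟩ : T) else none,
      Finset.mem_univ _, ?_⟩
    ext z
    rw [Finset.mem_filter]
    constructor
    · rintro ⟨-, i, hi⟩
      dsimp only at hi
      by_cases h : (i : ℕ) < A.card
      · rw [dif_pos h] at hi
        rw [← Option.some.inj hi]
        exact (A.equivFin.symm ⟨i, h⟩).2
      · rw [dif_neg h] at hi
        exact absurd hi (by simp)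
    · intro hz
      refine ⟨Finset.mem_univ _, ⟨(A.equivFin ⟨z, hz⟩ : Fin A.card), ?_⟩, ?_⟩
      · exact lt_of_lt_of_le (A.equivFin ⟨z, hz⟩).2 hc
      · have h : ((A.equivFin ⟨z, hz⟩ : Fin A.card) : ℕ) < A.card := (A.equivFin ⟨z, hz⟩).2
        simp only [h, dif_pos]
        simp
  refine (Finset.card_le_card h1).trans (Finset.card_image_le.trans ?_)
  rw [Finset.card_univ, Fintype.card_fun, Fintype.card_option, Fintype.card_fin]

lemma CLO_ind (K : Type) [Field K] [Fintype K] [DecidableEq K] (p L G t : ℕ) (ε : K ≃ Fin p × Fin L)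
    (U : Finset (Finset (K × K))) (hU : ∀ A, A ∈ U ↔ PF A ∧ A.card ≤ 2 * t) :
    ∀ (m : ℕ) (𝓑 : Finset (Finset (K × K))), 𝓑 ⊆ U → (U \ 𝓑).card ≤ m →
    ∃ 𝓐 : Finset (Finset (K × K)), 𝓑 ⊆ 𝓐 ∧ Clsd G t ε 𝓐 ∧
      Nat.card {ω : Fin G → (K × Fin p → Fin L) // Acc 𝓐 (Ng ε ω) ∧ ¬ Acc 𝓑 (Ng ε ω)} * 2 ^ G ≤
        m * Fintype.card (Fin G → (K × Fin p → Fin L)) := by
  classical
  intro m
  induction m with
  | zero =>
    intro 𝓑 h𝓑 hm
    have hUB : U ⊆ 𝓑 := by
      rw [← Finset.sdiff_eq_empty_iff_subset, ← Finset.card_eq_zero]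
      omega
    refine ⟨𝓑, Finset.Subset.refl _, ⟨fun B hB => (hU B).1 (h𝓑 hB), fun A hA hA2 _ =>
      hUB ((hU A).2 ⟨hA, hA2⟩)⟩, ?_⟩
    have h0 : Nat.card {ω : Fin G → (K × Fin p → Fin L) // Acc 𝓑 (Ng ε ω) ∧ ¬ Acc 𝓑 (Ng ε ω)} = 0 := by
      rw [Nat.card_eq_zero]
      left
      exact ⟨fun x => x.2.2 x.2.1⟩
    rw [h0]
    simp
  | succ m ih =>
    intro 𝓑 h𝓑 hm
    by_cases hcl : Clsd G t ε 𝓑
    · refine ⟨𝓑, Finset.Subset.refl _, hcl, ?_⟩
      have h0 : Nat.card {ω : Fin G → (K × Fin p → Fin L) // Acc 𝓑 (Ng ε ω) ∧ ¬ Acc 𝓑 (Ng ε ω)} = 0 := by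
        rw [Nat.card_eq_zero]
        left
        exact ⟨fun x => x.2.2 x.2.1⟩
      rw [h0]
      simp
    · unfold Clsd at hcl
      push Not at hcl
      obtain ⟨A, hA1, hA2, hA3, hA4⟩ := hcl fun B hB => (hU B).1 (h𝓑 hB)
      have hAU : A ∈ U := (hU A).2 ⟨hA1, hA2⟩
      have hsub : insert A 𝓑 ⊆ U := by
        intro B hB
        rw [Finset.mem_insert] at hB
        rcases hB with rfl | hB
        · exact hAU
        · exact h𝓑 hB
      have hcard : (U \ insert A 𝓑).card ≤ m := by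
        have h1 : (U \ insert A 𝓑) = (U \ 𝓑).erase A := by
          ext B
          simp only [Finset.mem_sdiff, Finset.mem_insert, Finset.mem_erase, not_or]
          tauto
        rw [h1, Finset.card_erase_of_mem (Finset.mem_sdiff.2 ⟨hAU, hA4⟩)]
        omega
      obtain ⟨𝓐, h1, h2, h3⟩ := ih (insert A 𝓑) hsub hcard
      refine ⟨𝓐, (Finset.subset_insert _ _).trans h1, h2, ?_⟩
      rw [Nat.card_eq_fintype_card, Fintype.card_subtype] at h3 ⊢
      have h4 : (univ.filter fun ω : Fin G → (K × Fin p → Fin L) =>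
            Acc 𝓐 (Ng ε ω) ∧ ¬ Acc 𝓑 (Ng ε ω)) ⊆
          (univ.filter fun ω : Fin G → (K × Fin p → Fin L) =>
            Acc 𝓐 (Ng ε ω) ∧ ¬ Acc (insert A 𝓑) (Ng ε ω)) ∪
          (univ.filter fun ω : Fin G → (K × Fin p → Fin L) =>
            ¬ ∃ B ∈ 𝓑, ∀ z ∈ B, z ∈ A ∨ Ng ε ω z = true) := by
        intro ω hω
        rw [Finset.mem_filter] at hω
        obtain ⟨-, hω1, hω2⟩ := hω
        rw [Finset.mem_union, Finset.mem_filter, Finset.mem_filter]
        by_cases hω3 : Acc (insert A 𝓑) (Ng ε ω)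
        · right
          refine ⟨Finset.mem_univ _, ?_⟩
          rintro ⟨B, hB, hB2⟩
          obtain ⟨B', hB', hB2'⟩ := hω3
          rw [Finset.mem_insert] at hB'
          rcases hB' with rfl | hB'
          · exact hω2 ⟨B, hB, fun z hz => (hB2 z hz).elim (hB2' z) id⟩
          · exact hω2 ⟨B', hB', hB2'⟩
        · left
          exact ⟨Finset.mem_univ _, hω1, hω3⟩
      have h5 := (Finset.card_le_card h4).trans (Finset.card_union_le _ _)
      have h6 := Nat.mul_le_mul_right (2 ^ G) h5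
      rw [add_mul] at h6
      refine h6.trans ?_
      rw [add_mul, one_mul]
      refine add_le_add h3 ?_
      refine le_trans (le_of_eq ?_) hA3
      congr 2
      ext ω
      simp

theorem CLO : CLO_stmt := by
  classical
  intro K _ _ _ p L G t ε 𝓑 h𝓑
  set U : Finset (Finset (K × K)) := univ.filter fun A => PF A ∧ A.card ≤ 2 * t with hU
  have hU' : ∀ A, A ∈ U ↔ PF A ∧ A.card ≤ 2 * t := by
    intro A
    rw [hU, Finset.mem_filter]
    simp
  obtain ⟨𝓐, h1, h2, h3⟩ := CLO_ind K p L G t ε U hU' (U \ 𝓑).card 𝓑 (fun B hB => (hU' B).2 (h𝓑 B hB)) le_rfl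
  refine ⟨𝓐, h1, h2, h3.trans (Nat.mul_le_mul_right _ ?_)⟩
  refine (Finset.card_le_card Finset.sdiff_subset).trans ?_
  refine (CLO_card (2 * t) U (fun A hA => ((hU' A).1 hA).2)).trans (le_of_eq ?_)
  rw [Fintype.card_prod, pow_two]

end Pool.Agent.PB
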